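import Pool.Agent.Y326.Null2

/-! Logarithmic short-interval Möbius disjointness for rotations of tori, with the supremum over the rotations
inside the average, for sets of rotations of small measure; in particular for all closed null sets of
frequencies. -/

set_option autoImplicit false

open Finset MeasureTheory

namespace Pool.Agent.Results.MP_663568_nt.NullFrequencySets

/-- The Möbius function and the Liouville function. -/
def MuLambda : Set (ℕ → ℤ) :=
  {fun n => ArithmeticFunction.moebius n, fun n => (-1) ^ ArithmeticFunction.cardFactors n}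

/-- The supremum of `|∑_{h ≤ H} f(x + (h + n) g) u(n + h)|` over all rotations `g` in `E` and all starting
points `x` of the torus `ℝ^d/ℤ^d`. -/
noncomputable def windowSup {d : ℕ} (E : Set (Fin d → UnitAddCircle)) (f : C(Fin d → UnitAddCircle, ℂ))
    (u : ℕ → ℤ) (n H : ℕ) : ℝ :=
  ⨆ p : E × (Fin d → UnitAddCircle), ‖∑ h ∈ Icc 1 H, f (p.2 + (h + n) • (p.1 : Fin d → UnitAddCircle)) *
    ((u (n + h) : ℤ) : ℂ)‖

/-- **Logarithmic short-interval Möbius disjointness for rotations with frequencies in a small set.** For each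
continuous `f` on the torus `ℝ^d/ℤ^d` and `ε > 0` there are `δ > 0` and `K, L₀` such that, for `u = μ` and for
`u = λ`:

* if for each `k ∈ ℤ^d`, `0 < max |k_i| ≤ K`, the closure of the set of frequencies `k · g`, `g ∈ E`, has
  Lebesgue measure `< δ`, then there are `H₀, C` such that for all `H ≥ H₀` and `N ≥ H ^ C`
  `∑_{n ≤ N} (1/n) sup_{g ∈ E, x} |∑_{h ≤ H} f(x + (h + n) g) u(n + h)| ≤ ε H log N`;
* for each `L ≥ L₀` there are `H₀, C` such that the same holds uniformly over all sets `E` for which each of these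
  sets of frequencies is covered by at most `δ L` arcs of radius `1 / L`. -/
theorem result {d : ℕ} (f : C(Fin d → UnitAddCircle, ℂ)) (ε : ℝ) (hε : 0 < ε) :
    ∃ δ : ℝ, 0 < δ ∧ ∃ K L₀ : ℕ,
      (∀ E : Set (Fin d → UnitAddCircle), (∀ k : Fin d → ℤ, k ≠ 0 → (∀ i, |k i| ≤ K) →
        volume (closure ((fun g : Fin d → UnitAddCircle => ∑ i, k i • g i) '' E)) < ENNReal.ofReal δ) →
        ∃ H₀ C : ℕ, ∀ H N : ℕ, H₀ ≤ H → H ^ C ≤ N → ∀ u ∈ MuLambda,
          ∑ n ∈ Icc 1 N, (1 / (n : ℝ)) * windowSup E f u n H ≤ ε * H * Real.log N) ∧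
      (∀ L : ℕ, L₀ ≤ L → ∃ H₀ C : ℕ, ∀ E : Set (Fin d → UnitAddCircle),
        (∀ k : Fin d → ℤ, k ≠ 0 → (∀ i, |k i| ≤ K) → ∃ s : Finset UnitAddCircle, (s.card : ℝ) ≤ δ * L ∧
          ∀ g ∈ E, ∃ y ∈ s, dist (∑ i, k i • g i) y ≤ 1 / L) →
        ∀ H N : ℕ, H₀ ≤ H → H ^ C ≤ N → ∀ u ∈ MuLambda,
          ∑ n ∈ Icc 1 N, (1 / (n : ℝ)) * windowSup E f u n H ≤ ε * H * Real.log N) := by
  have hu1 : ∀ n : ℕ, |(ArithmeticFunction.moebius n : ℤ)| ≤ 1 := fun n => ArithmeticFunction.abs_moebius_le_one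
  have hu2 : ∀ n : ℕ, |((-1 : ℤ) ^ ArithmeticFunction.cardFactors n)| ≤ 1 := fun n => by
    rw [abs_pow, abs_neg, abs_one, one_pow]
  have t1 := Pool.Agent.Y326.TwoPoint.mu
  have t2 : Pool.Agent.Y326.TwoPoint (fun n => (-1 : ℤ) ^ ArithmeticFunction.cardFactors n) :=
    Pool.Agent.Y326.TwoPoint.lam
  obtain ⟨δ1, p1, K1, a1⟩ := Pool.Agent.Y326.wsup_vol hu1 t1 f ε hε
  obtain ⟨δ2, p2, K2, a2⟩ := Pool.Agent.Y326.wsup_vol hu2 t2 f ε hε
  obtain ⟨δ3, p3, K3, L3, a3⟩ := Pool.Agent.Y326.wsup_cov hu1 t1 f ε hε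
  obtain ⟨δ4, p4, K4, L4, a4⟩ := Pool.Agent.Y326.wsup_cov hu2 t2 f ε hε
  have hlow : ∀ (C C' H N : ℕ), C ≤ C' → 1 ≤ H → H ^ C' ≤ N → H ^ C ≤ N := fun C C' H N h1 h2 h3 =>
    (Nat.pow_le_pow_right h2 h1).trans h3
  refine ⟨min (min δ1 δ2) (min δ3 δ4), by positivity, max (max K1 K2) (max K3 K4), max L3 L4, ?_, ?_⟩
  · intro E hE
    have b1 : min (min δ1 δ2) (min δ3 δ4) ≤ δ1 := (min_le_left _ _).trans (min_le_left _ _)
    have b2 : min (min δ1 δ2) (min δ3 δ4) ≤ δ2 := (min_le_left _ _).trans (min_le_right _ _)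
    obtain ⟨H1, C1, h1⟩ := a1 E fun k hk0 hk => (hE k hk0 fun i => (hk i).trans (by
      push_cast; exact (le_max_left _ _).trans (le_max_left _ _))).trans_le (ENNReal.ofReal_le_ofReal b1)
    obtain ⟨H2, C2, h2⟩ := a2 E fun k hk0 hk => (hE k hk0 fun i => (hk i).trans (by
      push_cast; exact (le_max_right _ _).trans (le_max_left _ _))).trans_le (ENNReal.ofReal_le_ofReal b2)
    refine ⟨max (max H1 H2) 1, max C1 C2, fun H N hH hN u hu => ?_⟩
    have hH1 : 1 ≤ H := (le_max_right _ _).trans hH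
    rcases hu with rfl | hu
    · exact h1 H N (((le_max_left _ _).trans (le_max_left _ _)).trans hH) (hlow _ _ _ _ (le_max_left _ _) hH1 hN)
    · rw [Set.mem_singleton_iff] at hu
      subst hu
      exact h2 H N (((le_max_right _ _).trans (le_max_left _ _)).trans hH) (hlow _ _ _ _ (le_max_right _ _) hH1 hN)
  · intro L hL
    have b3 : min (min δ1 δ2) (min δ3 δ4) ≤ δ3 := (min_le_right _ _).trans (min_le_left _ _)
    have b4 : min (min δ1 δ2) (min δ3 δ4) ≤ δ4 := (min_le_right _ _).trans (min_le_right _ _)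
    obtain ⟨H1, C1, h1⟩ := a3 L ((le_max_left _ _).trans hL)
    obtain ⟨H2, C2, h2⟩ := a4 L ((le_max_right _ _).trans hL)
    refine ⟨max (max H1 H2) 1, max C1 C2, fun E hE H N hH hN u hu => ?_⟩
    have hH1 : 1 ≤ H := (le_max_right _ _).trans hH
    rcases hu with rfl | hu
    · refine h1 E (fun k hk0 hk => ?_) H N (((le_max_left _ _).trans (le_max_left _ _)).trans hH)
        (hlow _ _ _ _ (le_max_left _ _) hH1 hN)
      obtain ⟨s, hs1, hs2⟩ := hE k hk0 fun i => (hk i).trans (by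
        push_cast; exact (le_max_left _ _).trans (le_max_right _ _))
      exact ⟨s, hs1.trans (mul_le_mul_of_nonneg_right b3 (Nat.cast_nonneg L)), hs2⟩
    · rw [Set.mem_singleton_iff] at hu
      subst hu
      refine h2 E (fun k hk0 hk => ?_) H N (((le_max_right _ _).trans (le_max_left _ _)).trans hH)
        (hlow _ _ _ _ (le_max_right _ _) hH1 hN)
      obtain ⟨s, hs1, hs2⟩ := hE k hk0 fun i => (hk i).trans (by
        push_cast; exact (le_max_right _ _).trans (le_max_right _ _))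
      exact ⟨s, hs1.trans (mul_le_mul_of_nonneg_right b4 (Nat.cast_nonneg L)), hs2⟩

end Pool.Agent.Results.MP_663568_nt.NullFrequencySets
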